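import Mathlib
import Pool.Agent.Lib.MP_0a1b52_lc_RND.Main

/-!
Abstract acceptors: the method of the random chain for any device on which a local dichotomy and a
bound on the number of events along monotone chains hold.
-/

namespace Pool.Agent.CliqueAbs

open Finset Pool.Agent.MP0a1b52 Pool.Agent.CliqueModules

set_option linter.unusedSectionVars false

/-- A device which accepts some assignments, with a relation of events. -/
structure Acceptor (V : Type) where
  Acc : (V → Prop) → Prop
  Ev : (V → Prop) → (V → Prop) → Prop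

/-- The local dichotomy, with `a` approximated gates. -/
def Acceptor.Local {V : Type} (α : Acceptor V) (a : ℕ) : Prop :=
  ∀ (I : Type) [Fintype I] [DecidableEq I] (d : ℕ), 2 ≤ d → ∀ X : Set I → V → Prop,
    (∀ v, (∃ ι, ∀ z, X z v ↔ ι ∈ z) ∨ (∃ p : Prop, ∀ z, X z v ↔ p)) →
    (∀ z v, X ∅ v → X z v) →
    ∃ 𝓖 : Set (Set I → Prop), Good d d 𝓖 a ∧
      (∀ z, (∀ g ∈ 𝓖, g z → g ∅) → α.Acc (X z) → α.Acc (X ∅)) ∧
      (∀ z, ∀ g ∈ 𝓖, ¬ g ∅ → g z → α.Ev (X ∅) (X z))

open Classical in
/-- At most `W` events happen along monotone chains of assignments which change only on `T`. -/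
def Acceptor.ChainLE {V : Type} (α : Acceptor V) (T : Finset V) (W : ℕ) : Prop :=
  ∀ (M : ℕ) (x : ℕ → V → Prop), (∀ t v, x t v → x (t + 1) v) →
    (∀ t v, v ∉ T → (x t v ↔ x (t + 1) v)) →
    ((range M).filter fun t => α.Ev (x t) (x (t + 1))).card ≤ W

variable {n a : ℕ} {F A W J R β : Type} [Field F] [Fintype F] [DecidableEq F]
  [Fintype A] [DecidableEq A] {d p : ℕ}
  (φ : F → A) (σ : W → J) (π : F × A → W) (ε : R → GV F A W d p → Fin n)

variable {b : R → β}

open Classical in
/-- One step, counting version. -/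
theorem one_step_count [DecidableEq R] (hε : IsPack ε b) (hd : 2 ≤ d)
    (α : Acceptor (EdgeVar n)) (hα : α.Local a)
    (Bd : ℕ) (hB : ∀ α, (univ.filter fun z : F => φ z = α).card ≤ Bd)
    (h2 : 2 * ((d - 1) * Bd) ≤ Fintype.card F) (hdF : d ≤ Fintype.card F)
    (hneg : 4 * (Fintype.card F ^ d * (4 * d - 1) ^ Fintype.card F) ≤
      (4 * d) ^ Fintype.card F) (hs : a ≤ 2 ^ d)
    (x : R → Set (F × A)) (ρ : R) (hρ : x ρ = ∅) :
    ((univ.filter fun c : Fin d → F =>
        α.Acc (asg φ σ π ε (Function.update x ρ (testPos φ c))) ∧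
        ¬ α.Acc (asg φ σ π ε x)).card * 2 ^ d ≤ a * Fintype.card F ^ d) ∨
    ((univ : Finset (F × A → Fin (4 * d))).card ≤
      4 * (univ.filter fun ω : F × A → Fin (4 * d) =>
        (∀ c : Fin d → F, ¬ testPos φ c ⊆ testNeg ω) ∧
        α.Ev (asg φ σ π ε x) (asg φ σ π ε (Function.update x ρ (testNeg ω)))).card) := by
  set X : Set (F × A) → EdgeVar n → Prop := fun z => asg φ σ π ε (Function.update x ρ z) with hX
  have hX0 : X ∅ = asg φ σ π ε x := by
    rw [hX]
    simp only
    rw [← hρ, Function.update_eq_self]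
  have hXty : ∀ v, (∃ ι, ∀ z, X z v ↔ ι ∈ z) ∨ (∃ p : Prop, ∀ z, X z v ↔ p) := by
    intro e
    by_cases hc : ∃ ρ' ι, Carries π ε e ρ' ι
    · obtain ⟨ρ', ι, hc⟩ := hc
      by_cases hρρ : ρ' = ρ
      · subst hρρ
        left
        refine ⟨ι, fun z => ?_⟩
        show (UG φ σ π ε (Function.update x ρ' z)).Adj e.1.1 e.1.2 ↔ _
        rw [UG_adj_carries φ σ π ε hε hc, Function.update_self]
      · right
        refine ⟨ι ∈ x ρ', fun z => ?_⟩
        show (UG φ σ π ε (Function.update x ρ z)).Adj e.1.1 e.1.2 ↔ _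
        rw [UG_adj_carries φ σ π ε hε hc, Function.update_of_ne hρρ]
    · right
      push Not at hc
      refine ⟨X ∅ e, fun z => ?_⟩
      exact ⟨UG_adj_indep φ σ π ε hc _ _, UG_adj_indep φ σ π ε hc _ _⟩
  have hXmono : ∀ z, ∀ v, X ∅ v → X z v := by
    intro z e
    refine UG_mono φ σ π ε ?_ _ _
    intro ρ'
    by_cases h : ρ' = ρ
    · subst h
      rw [Function.update_self]
      exact Set.empty_subset _
    · rw [Function.update_of_ne h, Function.update_of_ne h]
  obtain ⟨𝓖, hgood, hacc, hev⟩ := hα (F × A) d hd X hXty hXmono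
  rcases step_count φ Bd hB hd h2 hdF hneg 𝓖 a hs hgood with
    ⟨bad, hbad, hc⟩ | ⟨g, hg, hg0, hcard⟩
  · left
    refine le_trans (Nat.mul_le_mul_right _ (card_le_card ?_)) hbad
    intro c hcmem
    obtain ⟨-, h1, h3⟩ := mem_filter.1 hcmem
    by_contra hcb
    rw [← hX0] at h3
    exact h3 (hacc _ (hc c hcb) h1)
  · right
    refine hcard.trans (Nat.mul_le_mul_left _ (card_le_card ?_))
    intro ω hωmem
    obtain ⟨-, hω, hgω⟩ := mem_filter.1 hωmem
    refine mem_filter.2 ⟨mem_univ _, hω, ?_⟩
    have := hev _ g hg hg0 hgω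
    rwa [hX0] at this

section core

variable {M : ℕ} (η : Fin M → GV F A W d p → Fin n) {b : Fin M → β}

open Classical in
/-- The bound on the advantage of an acceptor on the random chain. -/
theorem core (hε : IsPack η b) (hd : 2 ≤ d)
    (α : Acceptor (EdgeVar n)) (hα : α.Local a) (T : Finset (EdgeVar n)) (w : ℕ)
    (hw : α.ChainLE T w)
    (hT : ∀ e ρ ι, Carries π η e ρ ι → e ∈ T)
    (Bd : ℕ) (hB : ∀ α, (univ.filter fun z : F => φ z = α).card ≤ Bd)
    (h2 : 2 * ((d - 1) * Bd) ≤ Fintype.card F) (hdF : d ≤ Fintype.card F)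
    (hneg : 4 * (Fintype.card F ^ d * (4 * d - 1) ^ Fintype.card F) ≤
      (4 * d) ^ Fintype.card F) (hs : a ≤ 2 ^ d) :
    (univ.filter fun i : (Fin M → Om φ d) × Fin M × (Fin d → F) =>
        α.Acc (asg φ σ π η
          (Function.update (stt φ i.1 i.2.1) i.2.1 (testPos φ i.2.2)))).card * 2 ^ d ≤
    (univ.filter fun i : (Fin M → Om φ d) × Fin M × (Fin d → F) =>
        α.Acc (asg φ σ π η (stt φ i.1 i.2.1))).card * 2 ^ d +
    Fintype.card (Fin M → Om φ d) * Fintype.card F ^ d * (4 * w * 2 ^ d + M * a) := by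
  set q := Fintype.card F with hq
  -- the events
  let Ev : (Fin M → Om φ d) → ℕ → Prop := fun ω t =>
    α.Ev (asg φ σ π η (stt φ ω t)) (asg φ σ π η (stt φ ω (t + 1)))
  obtain ⟨S, hSdef⟩ : ∃ S : Fin M → (Fin M → Om φ d) → Prop, ∀ t ω, S t ω ↔
    Fintype.card (Om φ d) ≤ 4 * (univ.filter fun ω' : Om φ d =>
      Ev (Function.update ω t ω') t.val).card := ⟨_, fun _ _ => Iff.rfl⟩
  have hS : ∀ t : Fin M, (univ.filter (S t)).card ≤ 4 * (univ.filter fun ω => Ev ω t.val).card :=
    fun t => resample t (S t) (fun ω => Ev ω t.val) (fun ω h => (hSdef t ω).1 h)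
  -- the number of events on a chain
  have hEv : ∀ ω, ((range M).filter fun t => Ev ω t).card ≤ w := by
    intro ω
    refine hw M (fun t => asg φ σ π η (stt φ ω t)) ?_ ?_
    · intro t v
      exact UG_mono φ σ π η (stt_mono φ ω t) _ _
    · intro t v hv
      have hno : ∀ ρ ι, ¬ Carries π η v ρ ι := fun ρ ι h => hv (hT v ρ ι h)
      exact ⟨UG_adj_indep φ σ π η hno _ _, UG_adj_indep φ σ π η hno _ _⟩
  have hEv' : ∑ t : Fin M, (univ.filter fun ω : Fin M → Om φ d => Ev ω t.val).card ≤
      Fintype.card (Fin M → Om φ d) * w := by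
    have h1 : ∑ t : Fin M, (univ.filter fun ω : Fin M → Om φ d => Ev ω t.val).card =
        ∑ ω : Fin M → Om φ d, (univ.filter fun t : Fin M => Ev ω t.val).card := by
      simp only [card_filter]
      rw [sum_comm]
    have h2 : ∀ ω : Fin M → Om φ d, (univ.filter fun t : Fin M => Ev ω t.val).card ≤ w := by
      intro ω
      refine le_trans ?_ (hEv ω)
      refine card_le_card_of_injOn (fun t : Fin M => t.val) ?_ ?_
      · intro t ht
        rw [mem_coe] at ht ⊢
        exact mem_filter.2 ⟨mem_range.2 t.isLt, (mem_filter.1 ht).2⟩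
      · intro t _ t' _ h
        exact Fin.ext h
    rw [h1]
    refine (sum_le_sum fun ω _ => h2 ω).trans (le_of_eq ?_)
    rw [sum_const, card_univ, smul_eq_mul]
  -- one step
  have hstep : ∀ (ω : Fin M → Om φ d) (t : Fin M),
      (univ.filter fun c : Fin d → F =>
        α.Acc (asg φ σ π η (Function.update (stt φ ω t) t (testPos φ c)))).card * 2 ^ d ≤
      (univ.filter fun c : Fin d → F => α.Acc (asg φ σ π η (stt φ ω t))).card * 2 ^ d +
      (a * q ^ d + if S t ω then q ^ d * 2 ^ d else 0) := by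
    intro ω t
    have h1 : (univ.filter fun c : Fin d → F =>
        α.Acc (asg φ σ π η (Function.update (stt φ ω t) t (testPos φ c)))).card ≤
        (univ.filter fun c : Fin d → F => α.Acc (asg φ σ π η (stt φ ω t))).card +
        (univ.filter fun c : Fin d → F =>
          α.Acc (asg φ σ π η (Function.update (stt φ ω t) t (testPos φ c))) ∧
          ¬ α.Acc (asg φ σ π η (stt φ ω t))).card := by
      refine (card_le_card ?_).trans (card_union_le _ _)
      intro c hc
      have hc' := (mem_filter.1 hc).2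
      by_cases h : α.Acc (asg φ σ π η (stt φ ω t))
      · exact mem_union_left _ (mem_filter.2 ⟨mem_univ _, h⟩)
      · exact mem_union_right _ (mem_filter.2 ⟨mem_univ _, hc', h⟩)
    have h3 : (univ.filter fun c : Fin d → F =>
          α.Acc (asg φ σ π η (Function.update (stt φ ω t) t (testPos φ c))) ∧
          ¬ α.Acc (asg φ σ π η (stt φ ω t))).card * 2 ^ d ≤
        a * q ^ d + if S t ω then q ^ d * 2 ^ d else 0 := by
      rcases one_step_count φ σ π η hε hd α hα Bd hB h2 hdF hneg hs (stt φ ω t) t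
        (stt_self φ ω t) with h | h
      · exact h.trans (Nat.le_add_right _ _)
      · have hSt : S t ω := by
          rw [hSdef]
          show Fintype.card (Om φ d) ≤ 4 * (univ.filter fun ω' : Om φ d =>
            Ev (Function.update ω t ω') t.val).card
          have h4 : Fintype.card (Om φ d) ≤ (univ : Finset (F × A → Fin (4 * d))).card := by
            rw [card_univ]
            exact Fintype.card_subtype_le _
          refine h4.trans (h.trans (Nat.mul_le_mul_left _ ?_))
          rw [← card_map (Function.Embedding.subtype _)]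
          refine card_le_card ?_
          intro ω' hω'
          obtain ⟨-, hω1, hω2⟩ := mem_filter.1 hω'
          refine mem_map.2 ⟨⟨ω', hω1⟩, mem_filter.2 ⟨mem_univ _, ?_⟩, rfl⟩
          show α.Ev (asg φ σ π η (stt φ (Function.update ω t ⟨ω', hω1⟩) t.val))
            (asg φ σ π η (stt φ (Function.update ω t ⟨ω', hω1⟩) (t.val + 1)))
          rw [stt_succ, stt_update, Function.update_self]
          exact hω2
        rw [if_pos hSt]
        have h5 : (univ.filter fun c : Fin d → F =>
          α.Acc (asg φ σ π η (Function.update (stt φ ω t) t (testPos φ c))) ∧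
          ¬ α.Acc (asg φ σ π η (stt φ ω t))).card ≤ q ^ d := by
          refine (card_filter_le _ _).trans ?_
          rw [card_univ, Fintype.card_fun, Fintype.card_fin]
        exact (Nat.mul_le_mul_right _ h5).trans (Nat.le_add_left _ _)
    calc _ ≤ _ := Nat.mul_le_mul_right _ h1
      _ = _ := add_mul _ _ _
      _ ≤ _ := Nat.add_le_add_left h3 _
  -- sum over everything
  have hsum : ∀ Q : (Fin M → Om φ d) × Fin M × (Fin d → F) → Prop,
      (univ.filter Q).card = ∑ ω : Fin M → Om φ d, ∑ t : Fin M,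
        (univ.filter fun c : Fin d → F => Q (ω, t, c)).card := by
    intro Q
    simp only [card_filter]
    rw [Fintype.sum_prod_type]
    refine sum_congr rfl fun ω _ => ?_
    rw [Fintype.sum_prod_type]
  rw [hsum, hsum, sum_mul, sum_mul]
  have h1 : ∑ ω : Fin M → Om φ d, (∑ t : Fin M, (univ.filter fun c : Fin d → F =>
        α.Acc (asg φ σ π η (Function.update (stt φ ω t) t (testPos φ c)))).card) * 2 ^ d ≤
      ∑ ω : Fin M → Om φ d, ((∑ t : Fin M, (univ.filter fun c : Fin d → F =>
        α.Acc (asg φ σ π η (stt φ ω t))).card) * 2 ^ d +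
        ∑ t : Fin M, (a * q ^ d + if S t ω then q ^ d * 2 ^ d else 0)) := by
    refine sum_le_sum fun ω _ => ?_
    rw [sum_mul, sum_mul, ← sum_add_distrib]
    exact sum_le_sum fun t _ => hstep ω t
  refine h1.trans ?_
  rw [sum_add_distrib]
  refine Nat.add_le_add_left ?_ _
  have h3 : ∑ ω : Fin M → Om φ d, ∑ t : Fin M, (a * q ^ d + if S t ω then q ^ d * 2 ^ d else 0) =
      Fintype.card (Fin M → Om φ d) * (M * (a * q ^ d)) +
      (∑ t : Fin M, (univ.filter (S t)).card) * (q ^ d * 2 ^ d) := by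
    simp only [sum_add_distrib, sum_const, card_univ, smul_eq_mul, Fintype.card_fin]
    congr 1
    rw [sum_comm, sum_mul]
    refine sum_congr rfl fun t _ => ?_
    rw [card_filter, sum_mul]
    refine sum_congr rfl fun ω _ => ?_
    split_ifs
    · rw [one_mul]
    · rw [zero_mul]
  rw [h3]
  have h4 : ∑ t : Fin M, (univ.filter (S t)).card ≤
      4 * (Fintype.card (Fin M → Om φ d) * w) := by
    refine (sum_le_sum fun t _ => hS t).trans ?_
    rw [← mul_sum]
    exact Nat.mul_le_mul_left _ hEv'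
  calc Fintype.card (Fin M → Om φ d) * (M * (a * q ^ d)) +
      (∑ t : Fin M, (univ.filter (S t)).card) * (q ^ d * 2 ^ d)
      ≤ Fintype.card (Fin M → Om φ d) * (M * (a * q ^ d)) +
      (4 * (Fintype.card (Fin M → Om φ d) * w)) * (q ^ d * 2 ^ d) :=
        Nat.add_le_add_left (Nat.mul_le_mul_right _ h4) _
    _ = _ := by ring

end core

end Pool.Agent.CliqueAbs
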